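import Pool.Agent.K1H34.Had2.Stmts
import Pool.Agent.K1H34.Had.ChooseP
import Pool.Agent.K1H37.Had2.Step

/-! A Paley order in a given class (project PS, piece ORDER). -/

set_option autoImplicit false

namespace Pool.Agent.K1H37.Had2

open Pool.Agent.K1H34.Had (PHad NN prime_ap)
open Pool.Agent.K1H34.Had2

theorem t_ORDER : S_ORDER := by
  obtain ⟨y0, hap⟩ := prime_ap 2 2
  have hev : ∀ᶠ n : ℕ in Filter.atTop, (y0 : ℝ) ≤ (n : ℝ) ^ (3 / 5 : ℝ) ∧ 10 ≤ Real.log n ∧ 1 ≤ n := by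
    have h1 : ∀ᶠ n : ℕ in Filter.atTop, (y0 : ℝ) ≤ (n : ℝ) ^ (3 / 5 : ℝ) :=
      ((tendsto_rpow_atTop (by norm_num : (0 : ℝ) < 3 / 5)).comp
        tendsto_natCast_atTop_atTop).eventually_ge_atTop _
    have h2 : ∀ᶠ n : ℕ in Filter.atTop, (10 : ℝ) ≤ Real.log n :=
      (Real.tendsto_log_atTop.comp tendsto_natCast_atTop_atTop).eventually_ge_atTop _
    filter_upwards [h1, h2, Filter.eventually_ge_atTop 1] with n a b c
    exact ⟨a, b, c⟩
  obtain ⟨n₀, hn₀⟩ := Filter.eventually_atTop.1 hev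
  refine ⟨n₀, fun n k y hn h4 hN hy => ?_⟩
  obtain ⟨h1, h2, h3⟩ := hn₀ n hn
  have hn0 : (0 : ℝ) < n := by exact_mod_cast h3
  have hyy : y0 ≤ y := by exact_mod_cast h1.trans hy
  have hly : 3 / 5 * Real.log n ≤ Real.log y := by
    rw [← Real.log_rpow hn0]
    exact Real.log_le_log (Real.rpow_pos_of_pos hn0 _) hy
  have hy0 : (0 : ℝ) < y := lt_of_lt_of_le (Real.rpow_pos_of_pos hn0 _) hy
  have hly6 : 6 ≤ Real.log y := by linarith
  obtain ⟨q, hq⟩ : ∃ q, q = 2 * NN k := ⟨_, rfl⟩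
  have hNk := NN_pos k
  have hq1 : 1 ≤ q := by omega
  have hqR : (q : ℝ) ≤ Real.log y ^ 2 := by
    rw [hq]
    push_cast
    nlinarith
  obtain ⟨N', hN'⟩ := NN_dvd k
  have h4' := h4
  obtain ⟨t, ht⟩ := h4
  have hcop : ((n - 1) % q).Coprime q := by
    have h5 : (n - 1).Coprime q := by
      rw [hq]
      apply Nat.Coprime.mul_right
      · rw [Nat.coprime_two_right]
        exact Nat.odd_iff.2 (by omega)
      · unfold NN
        apply Nat.Coprime.pow_right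
        rw [Nat.coprime_two_right]
        exact Nat.odd_iff.2 (by omega)
    unfold Nat.Coprime at h5 ⊢
    rw [← Nat.gcd_rec, Nat.gcd_comm]
    exact h5
  obtain ⟨P, hP, hPc, hPy, hPL⟩ := hap y hyy q hq1 hqR ((n - 1) % q) (Nat.mod_lt _ hq1) hcop
  have hPn : P ≡ n - 1 [MOD q] := hPc.trans (Nat.mod_modEq _ q)
  have hPn1 : P + 1 ≡ n [MOD q] := by
    have h5 := hPn.add_right 1
    rwa [Nat.sub_add_cancel h3] at h5
  have h4q : 4 ∣ q := ⟨2 * N', by rw [hq, hN']; ring⟩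
  have hP4 : P % 4 = 3 := by
    have h5 : P ≡ n - 1 [MOD 4] := hPn.of_dvd h4q
    have h6 : P % 4 = (n - 1) % 4 := h5
    omega
  refine ⟨P + 1, Pool.Agent.Y341.Had.had_paley_one hP hP4, by omega, by rw [← hq]; exact hPn1, ?_, ?_⟩
  · push_cast
    have h5 : (y : ℝ) / Real.log y ^ 2 ≤ y / 2 := by
      apply div_le_div_of_nonneg_left hy0.le (by norm_num)
      nlinarith
    linarith
  · push_cast
    have : (P : ℝ) ≤ y := by exact_mod_cast hPy
    linarith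

end Pool.Agent.K1H37.Had2
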